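import Pool.Agent.H90.HM.Rel

/-!
# S13, HM: `hasse2`

If `c` is totally positive and a square at the primes above `2`, and the symbols `ts v c b` vanish at all `v ∤ 2`, then
`b = s ^ 2 - c t ^ 2`.
-/

set_option autoImplicit false

open scoped NumberField
open IsDedekindDomain

noncomputable section

namespace Pool.Agent.H90.HM

open H63.MA

theorem kum_dec {K : Type} [Field K] [NumberField K] {L : Type} [Field L] [NumberField L]
    [Algebra K L] {c : Kˣ} (H : Kum 2 K (-1 : K) c L) (z : L) :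
    ∃ s t : K, z = algebraMap K L s + algebraMap K L t * H.γ := by
  have h2L : (2 : L) ≠ 0 := two_ne_zero
  have hγ0 : (H.γ : L) ≠ 0 := H.γ.ne_zero
  have hσγ : H.σ (H.γ : L) = -(H.γ : L) := by
    rw [H.hσ, map_neg, map_one, neg_one_mul]
  have hσσ : ∀ z : L, H.σ (H.σ z) = z := by
    intro z
    have h1 := kum_σ_pow Nat.prime_two zeta2 H
    have h2 := congrArg (fun g : L ≃ₐ[K] L => g z) h1
    rw [pow_two] at h2
    exact h2
  obtain ⟨s, hs⟩ := kum_fixed Nat.prime_two zeta2 H ((z + H.σ z) / 2) (by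
    rw [map_div₀, map_add, hσσ, map_ofNat, add_comm])
  obtain ⟨t, ht⟩ := kum_fixed Nat.prime_two zeta2 H ((z - H.σ z) / (2 * H.γ)) (by
    rw [map_div₀, map_sub, hσσ, map_mul, map_ofNat, hσγ]
    field_simp
    ring)
  refine ⟨s, t, ?_⟩
  rw [hs, ht]
  field_simp
  ring

theorem units_rank_pos {K : Type} [Field K] [NumberField K] {L : Type} [Field L] [NumberField L]
    [Algebra K L] {c : Kˣ} (H : Kum 2 K (-1 : K) c L) (hpos : ∀ φ : K →+* ℝ, 0 < φ (c : K)) :
    NumberField.Units.rank L + 1 = 2 * (NumberField.Units.rank K + 1) := by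
  have hgal : IsGalois K L := kum_galois Nat.prime_two zeta2 H
  have hun : IsUnramifiedAtInfinitePlaces K L := by
    refine ⟨fun w => ?_⟩
    rw [← NumberField.InfinitePlace.mk_embedding w,
      NumberField.InfinitePlace.isUnramified_mk_iff_isUnmixed]
    intro hr
    obtain ⟨φ, hφ⟩ : ∃ φ, φ = w.embedding := ⟨_, rfl⟩
    rw [← hφ] at hr ⊢
    have h1 : ∀ x : K, ((hr.embedding x : ℝ) : ℂ) = φ (algebraMap K L x) := fun x =>
      hr.coe_embedding_apply x
    have h2 := hpos hr.embedding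
    obtain ⟨r, hr2⟩ : ∃ r : ℝ, r = hr.embedding (c : K) := ⟨_, rfl⟩
    rw [← hr2] at h2
    have h3 : φ (H.γ : L) ^ 2 = ((Real.sqrt r : ℝ) : ℂ) ^ 2 := by
      rw [← map_pow, H.hγ, ← h1, ← hr2, ← Complex.ofReal_pow, Real.sq_sqrt h2.le]
    have h4 : ∃ g : ℝ, φ (H.γ : L) = (g : ℂ) := by
      rcases sq_eq_sq_iff_eq_or_eq_neg.1 h3 with h | h
      · exact ⟨_, h⟩
      · exact ⟨-Real.sqrt r, by rw [h]; push_cast; rfl⟩
    obtain ⟨g, hg⟩ := h4
    rw [NumberField.ComplexEmbedding.isReal_iff]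
    ext z
    obtain ⟨s, t, rfl⟩ := kum_dec H z
    rw [NumberField.ComplexEmbedding.conjugate_coe_eq, map_add, map_mul, ← h1, ← h1, hg,
      ← Complex.ofReal_mul, ← Complex.ofReal_add, Complex.conj_ofReal]
  have h5 := IsUnramifiedAtInfinitePlaces.card_infinitePlace K L
  have hposK : 0 < Fintype.card (NumberField.InfinitePlace K) := Fintype.card_pos
  have hposL : 0 < Fintype.card (NumberField.InfinitePlace L) := Fintype.card_pos
  rw [H.deg] at h5
  unfold NumberField.Units.rank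
  rw [Nat.sub_add_cancel hposK, Nat.sub_add_cancel hposL, h5, mul_comm]

theorem norm_eq_sq {K : Type} [Field K] [NumberField K] {L : Type} [Field L] [NumberField L]
    [Algebra K L] {c : Kˣ} (H : Kum 2 K (-1 : K) c L) (y : Lˣ) :
    ∃ s t : K, ((Nm K L y : Kˣ) : K) = s ^ 2 - c * t ^ 2 := by
  obtain ⟨s, t, hst⟩ := kum_dec H (y : L)
  refine ⟨s, t, ?_⟩
  have hσγ : H.σ (H.γ : L) = -(H.γ : L) := by
    rw [H.hσ, map_neg, map_one, neg_one_mul]
  apply (algebraMap K L).injective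
  have h3 : ((inc K L (Nm K L y) : Lˣ) : L) = (y : L) * H.σ y := by
    rw [kum_norm Nat.prime_two zeta2 H y]
    rw [Finset.prod_range_succ, Finset.prod_range_succ, Finset.prod_range_zero, one_mul, pow_zero,
      pow_one, Units.val_mul]
    rfl
  have h4 : algebraMap K L ((Nm K L y : Kˣ) : K) = (y : L) * H.σ y := h3
  rw [h4, hst, map_add, map_mul, AlgEquiv.commutes, AlgEquiv.commutes, hσγ, map_sub, map_mul,
    map_pow, map_pow, ← H.hγ]
  ring

/-- the Hasse norm theorem for `K(√c)`, `c` totally positive and a square at the primes above `2` -/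
theorem hasse2 {K : Type} [Field K] [NumberField K] (c b : Kˣ) (hc : Prim 2 c)
    (hpos : ∀ φ : K →+* ℝ, 0 < φ (c : K)) (hb : ∀ v : Pl K, ¬ Above 2 v → ts v c b = 0) :
    ∃ s t : K, (b : K) = s ^ 2 - c * t ^ 2 := by
  by_cases hsq : IsPow 2 c
  · obtain ⟨e, he⟩ := hsq
    have he0 : (e : K) ≠ 0 := e.ne_zero
    refine ⟨(b + 1) / 2, (b - 1) / (2 * e), ?_⟩
    rw [← he, Units.val_pow_eq_pow_val]
    field_simp
    ring
  · obtain ⟨L, _, _, _, ⟨H⟩⟩ := kum_exists Nat.prime_two zeta2 hsq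
    obtain ⟨y, hy⟩ := hasse_norm H (units_rank_pos H hpos) hc b hb
    rw [← hy]
    exact norm_eq_sq H y

end Pool.Agent.H90.HM
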