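import Pool.Agent.H90.HM.T

/-!
# S13, HM: the index of the norm group of `T`-units, with the rank of the units as hypothesis

Copy of `H63.MA.norm_index` (H63/MA/KumF.lean).
-/

set_option autoImplicit false

open scoped NumberField
open IsDedekindDomain

noncomputable section

namespace Pool.Agent.H90.HM

open H63.MA

variable {K : Type} [Field K] [NumberField K] {L : Type} [Field L] [NumberField L] [Algebra K L]
  {p : ℕ} (hp : p.Prime) {ζ : K} (hζ : IsPrimitiveRoot ζ p) {c : Kˣ}
  (H : Kum p K ζ c L)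

include hp hζ H

theorem norm_index (hur : NumberField.Units.rank L + 1 = p * (NumberField.Units.rank K + 1))
    (T : Finset (Pl K)) (TL : Finset (Pl L))
    (hTL : ∀ w : Pl L, w ∈ TL ↔ ∃ v ∈ T, Over w v) (hcl : ClOne T)
    (hT : ∀ v, Above p v → v ∈ T) (hr : ∀ v : Pl K, ¬ (p : ℤ) ∣ ord v c → v ∈ T)
    (hc : Prim p c) :
    (UT TL).map (Nm K L) ≤ UT T ∧
      ((UT TL).map (Nm K L)).relIndex (UT T) * p = p ^ (nsp p ζ c T).card := by
  classical
  have hle : (UT TL).map (Nm K L) ≤ UT T := by
    rintro _ ⟨x, hx, rfl⟩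
    exact kumF_nm_mem hp hζ H hTL hx
  refine ⟨hle, ?_⟩
  have hfm : Module.Finite ℤ (Additive (UT TL)) := ut_finite TL
  -- the automorphism
  let s' : UT TL →* UT TL := ((au H.σ).comp (UT TL).subtype).codRestrict (UT TL)
    (fun x => kumF_au_mem hp hζ H hTL x.2)
  let s : Additive (UT TL) →+ Additive (UT TL) := MonoidHom.toAdditive s'
  have hs : ∀ x : Additive (UT TL), ((s x).toMul : Lˣ) = au H.σ (x.toMul : Lˣ) := fun x => rfl
  have hsi : ∀ (i : ℕ) (x : Additive (UT TL)),
      (((s^[i]) x).toMul : Lˣ) = au (H.σ ^ i) (x.toMul : Lˣ) := by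
    intro i
    induction i with
    | zero => intro x; rw [pow_zero, kumF_au_one]; rfl
    | succ i ih =>
      intro x
      rw [Function.iterate_succ_apply', hs, ih, pow_succ', kumF_au_mul]
  -- the norm
  let sE : AddMonoid.End (Additive (UT TL)) := s
  let N : Additive (UT TL) →+ Additive (UT TL) := ∑ i ∈ Finset.range p, sE ^ i
  have hNs : ∀ x, N x = ∑ i ∈ Finset.range p, (s^[i]) x := by
    intro x
    rw [show N x = ∑ i ∈ Finset.range p, (sE ^ i) x from
      AddMonoidHom.finsetSum_apply _ _ _]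
    rfl
  have hNv : ∀ x : Additive (UT TL), ((N x).toMul : Lˣ) = inc K L (Nm K L (x.toMul : Lˣ)) := by
    intro x
    rw [hNs, toMul_sum, kum_norm hp hζ H, Subgroup.val_finsetProd]
    exact Finset.prod_congr rfl (fun i _ => hsi i x)
  -- the inclusion
  let f' : UT T →* UT TL := ((inc K L).comp (UT T).subtype).codRestrict (UT TL)
    (fun x => (kumF_inc_mem hTL).2 x.2)
  let f : Additive (UT T) →+ Additive (UT TL) := MonoidHom.toAdditive f'
  have hf : ∀ x : Additive (UT T), ((f x).toMul : Lˣ) = inc K L (x.toMul : Kˣ) := fun x => rfl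
  have hext : ∀ x y : Additive (UT TL), (x.toMul : Lˣ) = (y.toMul : Lˣ) → x = y := by
    intro x y h
    exact Additive.toMul.injective (Subtype.ext h)
  have hfinj : Function.Injective f := by
    intro x y h
    have h1 : (x.toMul : Kˣ) = (y.toMul : Kˣ) := by
      apply inc_injective K L
      rw [← hf, ← hf, h]
    exact Additive.toMul.injective (Subtype.ext h1)
  have hfr : f.range = (s - AddMonoidHom.id _).ker := by
    ext x
    rw [AddMonoidHom.mem_range, AddMonoidHom.mem_ker, AddMonoidHom.sub_apply, sub_eq_zero,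
      AddMonoidHom.id_apply]
    constructor
    · rintro ⟨y, rfl⟩
      apply hext
      rw [hs, hf]
      ext
      exact H.σ.commutes _
    · intro h
      have h1 : H.σ ((x.toMul : Lˣ) : L) = ((x.toMul : Lˣ) : L) := by
        have h0 : au H.σ (x.toMul : Lˣ) = (x.toMul : Lˣ) := by rw [← hs, h]
        exact congrArg Units.val h0
      obtain ⟨y, hy⟩ := kum_fixed hp hζ H _ h1
      have hy0 : y ≠ 0 := by
        rintro rfl
        rw [map_zero] at hy
        exact (x.toMul : Lˣ).ne_zero hy.symm
      have h2 : inc K L (Units.mk0 y hy0) = (x.toMul : Lˣ) := by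
        ext; exact hy
      have h3 : Units.mk0 y hy0 ∈ UT T := by
        rw [← kumF_inc_mem hTL, h2]
        exact x.toMul.2
      exact ⟨Additive.ofMul ⟨_, h3⟩, hext _ _ (by rw [hf]; exact h2)⟩
  have hσp : ∀ x, (s^[p]) x = x := by
    intro x
    apply hext
    rw [hsi, kum_σ_pow hp hζ H, kumF_au_one]
  have h90 : ∀ x, N x = 0 → ∃ y, x = s y - y := by
    intro x hx
    have h1 : Nm K L (x.toMul : Lˣ) = 1 := by
      apply inc_injective K L
      rw [← hNv, hx, map_one]
      rfl
    obtain ⟨u, hu, hxu⟩ := h90_tunit hp hζ H T TL hTL hcl (fun v w hv hw x =>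
      unram_case hp hζ H (fun h => hv (hT v h)) (by by_contra h; exact hv (hr v h)) hw x)
      (x.toMul : Lˣ) x.toMul.2 h1
    refine ⟨Additive.ofMul ⟨u, hu⟩, hext _ _ ?_⟩
    rw [toMul_sub, Subgroup.coe_div, hs, hxu]
    rw [div_eq_mul_inv]
    rfl
  have ha : Module.finrank ℤ (s - AddMonoidHom.id _).ker = NumberField.Units.rank K + T.card := by
    rw [← hfr, ← ut_rank T]
    exact (LinearEquiv.finrank_eq (AddMonoidHom.ofInjective hfinj).toIntLinearEquiv).symm
  have hnsp : (nsp p ζ c T).card ≤ T.card := by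
    unfold nsp; exact Finset.card_filter_le _ _
  have hcardTL := kumF_card hp hζ H T TL hTL hc
  obtain ⟨d, hd⟩ := Nat.exists_eq_add_of_le hnsp
  have hb : Module.finrank ℤ (Additive (UT TL)) =
      (NumberField.Units.rank K + T.card) + (p - 1) * (NumberField.Units.rank K + 1 + d) := by
    rw [ut_rank TL]
    obtain ⟨q, rfl⟩ : ∃ q, p = q + 1 := ⟨p - 1, by have := hp.pos; omega⟩
    rw [Nat.add_sub_cancel]
    rw [hd] at hcardTL ⊢
    nlinarith
  have ht : Nat.card {x : Additive (UT TL) // s x = x ∧ p • x = 0} = p := by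
    have : NeZero p := ⟨hp.ne_zero⟩
    have hru : Nat.card (rootsOfUnity p K) = p := hζ.card_rootsOfUnity
    have hmem : ∀ u : rootsOfUnity p K, (u : Kˣ) ∈ UT T := by
      intro u
      rw [mem_UT]
      intro v _
      have h1 : (u : Kˣ) ^ p = 1 := by
        have := u.2
        rwa [mem_rootsOfUnity] at this
      have h2 : (p : ℤ) * ord v (u : Kˣ) = 0 := by rw [← ord_pow, h1, ord_one]
      exact (mul_eq_zero.1 h2).resolve_left (by exact_mod_cast hp.ne_zero)
    have hpr : ∀ u : rootsOfUnity p K, (s (f (Additive.ofMul ⟨(u : Kˣ), hmem u⟩)) =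
        f (Additive.ofMul ⟨(u : Kˣ), hmem u⟩)) ∧
        p • f (Additive.ofMul ⟨(u : Kˣ), hmem u⟩) = 0 := by
      intro u
      constructor
      · have h1 : f (Additive.ofMul ⟨(u : Kˣ), hmem u⟩) ∈ (s - AddMonoidHom.id _).ker := by
          rw [← hfr]; exact ⟨_, rfl⟩
        rwa [AddMonoidHom.mem_ker, AddMonoidHom.sub_apply, sub_eq_zero,
          AddMonoidHom.id_apply] at h1
      · rw [← map_nsmul, ← ofMul_pow]
        have h1 : (⟨(u : Kˣ), hmem u⟩ : UT T) ^ p = 1 := by
          ext
          have := u.2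
          rw [mem_rootsOfUnity] at this
          rw [Subgroup.coe_pow]
          simp [this]
        rw [h1, ofMul_one, map_zero]
    rw [← hru]
    symm
    refine Nat.card_eq_of_bijective (fun u : rootsOfUnity p K =>
      (⟨f (Additive.ofMul ⟨(u : Kˣ), hmem u⟩), ?_⟩ : {x : Additive (UT TL) // s x = x ∧
        (Nat.card (rootsOfUnity p K)) • x = 0})) ⟨?_, ?_⟩
    · rw [hru]; exact hpr u
    · intro u u' h
      have h1 := hfinj (Subtype.mk.inj h)
      have h2 := congrArg (fun z : Additive (UT T) => (z.toMul : Kˣ)) h1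
      exact Subtype.ext h2
    · rintro ⟨x, hx1, hx2⟩
      have h1 : x ∈ f.range := by
        rw [hfr, AddMonoidHom.mem_ker, AddMonoidHom.sub_apply, sub_eq_zero,
          AddMonoidHom.id_apply]
        exact hx1
      obtain ⟨y, rfl⟩ := h1
      have h2 : p • y = 0 := by
        apply hfinj
        rw [map_nsmul, map_zero, ← hx2, hru]
      have h3 : (y.toMul : Kˣ) ∈ rootsOfUnity p K := by
        rw [mem_rootsOfUnity]
        have := congrArg (fun z : Additive (UT T) => (z.toMul : Kˣ)) h2
        simpa using this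
      exact ⟨⟨_, h3⟩, rfl⟩
  have key := (chevB hp s N hσp hNs h90 _ _ ha hb ht).2
  have hidx : N.range.relIndex (s - AddMonoidHom.id _).ker =
      ((UT TL).map (Nm K L)).relIndex (UT T) := by
    rw [← hfr, AddMonoidHom.range_eq_map f, ← AddSubgroup.relIndex_comap,
      AddSubgroup.relIndex_top_right]
    have h1 : AddSubgroup.comap f N.range =
        Subgroup.toAddSubgroup (((UT TL).map (Nm K L)).subgroupOf (UT T)) := by
      ext x
      rw [AddSubgroup.mem_comap, AddMonoidHom.mem_range]
      change _ ↔ x.toMul ∈ ((UT TL).map (Nm K L)).subgroupOf (UT T)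
      rw [Subgroup.mem_subgroupOf, Subgroup.mem_map]
      constructor
      · rintro ⟨y, hy⟩
        refine ⟨(y.toMul : Lˣ), y.toMul.2, ?_⟩
        apply inc_injective K L
        rw [← hNv, hy, hf]
      · rintro ⟨y, hy, hy'⟩
        refine ⟨Additive.ofMul ⟨y, hy⟩, hext _ _ ?_⟩
        rw [hNv, hf]
        exact congrArg _ hy'
    rw [h1, Subgroup.index_toAddSubgroup]
    rfl
  rw [hidx] at key
  have hppos : 0 < p ^ (NumberField.Units.rank K + 1 + d) := pow_pos hp.pos _
  have h5 : (((UT TL).map (Nm K L)).relIndex (UT T) * p) * p ^ (NumberField.Units.rank K + 1 + d) =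
      p ^ (nsp p ζ c T).card * p ^ (NumberField.Units.rank K + 1 + d) := by
    calc (((UT TL).map (Nm K L)).relIndex (UT T) * p) * p ^ (NumberField.Units.rank K + 1 + d)
        = (((UT TL).map (Nm K L)).relIndex (UT T) * p ^ (NumberField.Units.rank K + 1 + d)) * p := by
          ring
      _ = p ^ (NumberField.Units.rank K + T.card) * p := by rw [key]
      _ = _ := by
        rw [hd, ← pow_succ, ← pow_add]
        congr 1
        ring
  exact Nat.eq_of_mul_eq_mul_right hppos h5


end Pool.Agent.H90.HM
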