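import Pool.Agent.H63.MA.Uni

/-!
# S13, HM: the quadratic tame symbol with its sign

`ts v c x = B 2 (-1) v c x + ord c * ord x * lg (-1)` is the residue symbol of
`(-1) ^ (ord c * ord x) * c ^ ord x / x ^ ord c` at `v ∤ 2`.
-/

set_option autoImplicit false

open scoped NumberField
open IsDedekindDomain

noncomputable section

namespace Pool.Agent.H90.HM

open H63.MA

variable {K : Type} [Field K] [NumberField K]

/-- the quadratic tame symbol -/
def ts (v : Pl K) (c x : Kˣ) : ZMod 2 :=
  B 2 (-1 : K) v c x + (ord v c : ZMod 2) * (ord v x : ZMod 2) * lg 2 (-1 : K) v (-1)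

theorem zeta2 : IsPrimitiveRoot (-1 : K) 2 := by
  refine IsPrimitiveRoot.mk_of_lt (-1 : K) (by norm_num) (by norm_num) ?_
  intro l hl hl2
  have h1 : l = 1 := by omega
  rw [h1, pow_one]
  intro h
  have h5 : (2 : K) = 0 := by linear_combination -h
  exact two_ne_zero h5

theorem two_z (a : ZMod 2) : a + a = 0 := CharTwo.add_self_eq_zero a

theorem neg_z (a : ZMod 2) : -a = a := ZMod.neg_eq_self_mod_two a

theorem ord_neg_one (v : Pl K) : ord v (-1 : Kˣ) = 0 := by
  have h1 : 2 * ord v (-1 : Kˣ) = 0 := by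
    have := ord_pow v (-1 : Kˣ) 2
    rw [neg_one_sq, ord_one] at this
    rw [this]
    rfl
  omega

theorem ord_neg (v : Pl K) (x : Kˣ) : ord v (-x) = ord v x := by
  rw [← neg_one_mul, ord_mul, ord_neg_one, zero_add]

variable {v : Pl K} (hv : ¬ Above 2 v)

include hv

theorem T_mul_right (c x y : Kˣ) : ts v c (x * y) = ts v c x + ts v c y := by
  unfold ts
  rw [B_mul_right Nat.prime_two zeta2 hv, ord_mul]
  push_cast
  ring

theorem T_mul_left (c d x : Kˣ) : ts v (c * d) x = ts v c x + ts v d x := by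
  unfold ts
  rw [B_mul_left Nat.prime_two zeta2 hv, ord_mul]
  push_cast
  ring

theorem T_one_right (c : Kˣ) : ts v c 1 = 0 := by
  unfold ts
  rw [B_one_right Nat.prime_two zeta2 hv, ord_one]
  simp

theorem T_one_left (x : Kˣ) : ts v 1 x = 0 := by
  unfold ts
  rw [B_one_left Nat.prime_two zeta2 hv, ord_one]
  simp

theorem T_zpow_right (c x : Kˣ) (n : ℤ) : ts v c (x ^ n) = n * ts v c x := by
  unfold ts
  rw [B_zpow_right Nat.prime_two zeta2 hv, ord_zpow]
  push_cast
  ring

theorem T_symm (c x : Kˣ) : ts v c x = ts v x c := by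
  unfold ts
  rw [B_symm Nat.prime_two zeta2 hv c x, neg_z]
  ring

theorem T_sq_right (c x : Kˣ) : ts v c (x * x) = 0 := by
  rw [T_mul_right hv, two_z]

theorem T_of_one1 (c : Kˣ) {x : Kˣ} (hx : One1 v x) : ts v c x = 0 := by
  unfold ts
  rw [B_of_one1 Nat.prime_two zeta2 hv c hx, ord_of_one1 hx]
  simp

theorem T_unit {c : Kˣ} (hc : ord v c = 0) (x : Kˣ) : ts v c x = ord v x * lg 2 (-1 : K) v c := by
  unfold ts
  rw [B_unit Nat.prime_two zeta2 hv hc, hc]
  simp

omit hv in
theorem T_even {c : Kˣ} (hc : (2 : ℤ) ∣ ord v c) (x : Kˣ) : ts v c x = B 2 (-1 : K) v c x := by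
  unfold ts
  have h3 : ((ord v c : ℤ) : ZMod 2) = 0 := (ZMod.intCast_zmod_eq_zero_iff_dvd _ _).2 hc
  rw [h3, zero_mul, zero_mul, add_zero]

theorem T_unram {c : Kˣ} (hc : (2 : ℤ) ∣ ord v c) {π : Kˣ} (hπ : ord v π = 1) (x : Kˣ) :
    ts v c x = ord v x * ts v c π := by
  rw [T_even hc, T_even hc]
  exact B_unram Nat.prime_two zeta2 hv hc hπ x

/-- `c` is a square at `v` iff its symbol vanishes -/
theorem spl_T (c : Kˣ) : Spl 2 (-1 : K) v c ↔ ∀ x, ts v c x = 0 := by
  constructor
  · intro h x
    rw [T_even (spl_dvd Nat.prime_two zeta2 hv h)]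
    exact h x
  · intro h x
    have h1 : (2 : ℤ) ∣ ord v c := by
      obtain ⟨z, hz, hz1⟩ := exists_lg Nat.prime_two zeta2 hv 1
      have h1 := h z
      rw [T_symm hv, T_unit hv hz, hz1, mul_one] at h1
      exact (ZMod.intCast_zmod_eq_zero_iff_dvd _ _).1 h1
    rw [← T_even h1]
    exact h x

theorem T_self_neg (c : Kˣ) : ts v c (-c) = 0 := by
  have h1 : B 2 (-1 : K) v c (-c) = (ord v c : ZMod 2) * lg 2 (-1 : K) v (-1) := by
    have h2 := B_mul_right Nat.prime_two zeta2 hv c (-1) c
    rw [neg_one_mul, B_self Nat.prime_two zeta2 hv, add_zero,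
      B_symm Nat.prime_two zeta2 hv c (-1), neg_z,
      B_unit Nat.prime_two zeta2 hv (ord_neg_one v)] at h2
    exact h2
  unfold ts
  rw [h1, ord_neg]
  have h3 : (ord v c : ZMod 2) * (ord v c : ZMod 2) = (ord v c : ZMod 2) := by
    generalize (ord v c : ZMod 2) = a
    revert a
    decide
  rw [h3, two_z]

/-- Steinberg relation -/
theorem T_steinberg (a b : Kˣ) (h : (a : K) + b = 1) : ts v a b = 0 := by
  rcases lt_trichotomy (ord v a) 0 with ha | ha | ha
  · -- `b = - a (1 - 1 / a)`
    have h1 : One1 v (b * (-a)⁻¹) := by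
      unfold One1
      have e : ((b * (-a)⁻¹ : Kˣ) : K) - 1 = -((a : K)⁻¹) := by
        rw [Units.val_mul, Units.val_inv_eq_inv_val, Units.val_neg]
        have := a.ne_zero
        field_simp
        linear_combination -h
      rw [e, Valuation.map_neg]
      have h2 : 0 < ord v a⁻¹ := by
        rw [ord_inv]
        omega
      rw [ord_pos_iff] at h2
      rwa [Units.val_inv_eq_inv_val] at h2
    have h2 : ts v a (b * (-a)⁻¹ * (-a)) = 0 := by
      rw [T_mul_right hv, T_of_one1 hv a h1, T_self_neg hv, add_zero]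
    rwa [inv_mul_cancel_right] at h2
  · rw [T_unit hv ha]
    rcases lt_trichotomy (ord v b) 0 with hb | hb | hb
    · exfalso
      have h1 : v.valuation K (b : K) ≤ 1 := by
        have e : (b : K) = 1 - a := by linear_combination h
        rw [e]
        refine (Valuation.map_sub _ _ _).trans (max_le ?_ ?_)
        · rw [map_one]
        · rw [(ord_eq_zero_iff v a).1 ha]
      rw [← ord_nonneg_iff] at h1
      omega
    · rw [hb]
      simp
    · have h1 : One1 v a := by
        unfold One1
        have e : (a : K) - 1 = -b := by linear_combination h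
        rw [e, Valuation.map_neg]
        exact (ord_pos_iff v b).1 hb
      rw [lg_of_one1 Nat.prime_two zeta2 hv h1, mul_zero]
  · have h1 : One1 v b := by
      unfold One1
      have e : (b : K) - 1 = -a := by linear_combination h
      rw [e, Valuation.map_neg]
      exact (ord_pos_iff v a).1 ha
    exact T_of_one1 hv a h1

/-- the symbol of a norm vanishes -/
theorem T_norm (c x : Kˣ) (s t : K) (h : (x : K) = s ^ 2 - c * t ^ 2) : ts v c x = 0 := by
  by_cases hs : s = 0
  · subst hs
    have ht : t ≠ 0 := by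
      rintro rfl
      apply x.ne_zero
      rw [h]
      ring
    have e : x = (-c) * (Units.mk0 t ht * Units.mk0 t ht) := by
      ext
      rw [h, Units.val_mul, Units.val_mul, Units.val_neg, Units.val_mk0]
      ring
    rw [e, T_mul_right hv, T_self_neg hv, T_sq_right hv, add_zero]
  by_cases ht : t = 0
  · subst ht
    have e : x = Units.mk0 s hs * Units.mk0 s hs := by
      ext
      rw [h, Units.val_mul, Units.val_mk0]
      ring
    rw [e, T_sq_right hv]
  · set S := Units.mk0 s hs with hS
    set U := Units.mk0 t ht with hU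
    have hSv : (S : K) = s := rfl
    have hUv : (U : K) = t := rfl
    have h1 : ts v (c * (U * U * (S⁻¹ * S⁻¹))) (x * (S⁻¹ * S⁻¹)) = 0 := by
      apply T_steinberg hv
      simp only [Units.val_mul, Units.val_inv_eq_inv_val, hSv, hUv, h]
      field_simp
      ring
    rw [T_mul_right hv, T_sq_right hv, add_zero, T_mul_left hv] at h1
    have h2 : ts v (U * U * (S⁻¹ * S⁻¹)) x = 0 := by
      rw [T_symm hv, T_mul_right hv, T_sq_right hv, T_sq_right hv, add_zero]
    rw [h2, add_zero] at h1
    exact h1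

omit hv in
theorem finite_T (c x : Kˣ) : {v : Pl K | ¬ Above 2 v ∧ ts v c x ≠ 0}.Finite := by
  refine ((finite_ord c).union (finite_ord x)).subset ?_
  rintro w ⟨hw, hne⟩
  by_contra hcon
  rw [Set.mem_union, not_or] at hcon
  have h1 : ord w c = 0 := by
    by_contra h
    exact hcon.1 h
  have h2 : ord w x = 0 := by
    by_contra h
    exact hcon.2 h
  apply hne
  rw [T_unit hw h1, h2]
  simp

end Pool.Agent.H90.HM
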